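import Mathlib

/-! Asymptotics of `N / log ^ (k + 1) N` for `N` near a multiple of `√n`. -/

set_option autoImplicit false

namespace Pool.Agent.K1H84.FS

open Filter Topology

/-- the smallest prime of a tuple is larger than this -/
def lo (n : ℕ) : ℕ := Nat.sqrt (29 * n)

/-- the largest admissible value of the smallest prime of a tuple -/
def hi (b n : ℕ) : ℕ := Nat.sqrt (30 * n) - Nat.sqrt n / b

lemma sqrt_tendsto : Tendsto (fun n : ℕ => Real.sqrt n) atTop atTop :=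
  Real.tendsto_sqrt_atTop.comp tendsto_natCast_atTop_atTop

lemma inv_tendsto : Tendsto (fun n : ℕ => 1 / Real.sqrt n) atTop (𝓝 0) := by
  simpa [one_div, Function.comp_def] using tendsto_inv_atTop_zero.comp sqrt_tendsto

lemma natsqrt_tendsto (m : ℕ) : Tendsto (fun n : ℕ => (Nat.sqrt (m * n) : ℝ) / Real.sqrt n) atTop (𝓝 (Real.sqrt m)) := by
  have h1 : Tendsto (fun n : ℕ => Real.sqrt m - 1 / Real.sqrt n) atTop (𝓝 (Real.sqrt m)) := by
    simpa using tendsto_const_nhds.sub inv_tendsto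
  refine tendsto_of_tendsto_of_tendsto_of_le_of_le' h1 tendsto_const_nhds ?_ ?_
  · filter_upwards [eventually_ge_atTop 1] with n hn
    have hs : 0 < Real.sqrt n := Real.sqrt_pos.2 (by exact_mod_cast hn)
    have h2 : Real.sqrt ((m * n : ℕ) : ℝ) < Nat.sqrt (m * n) + 1 := Real.real_sqrt_lt_nat_sqrt_succ
    rw [Nat.cast_mul, Real.sqrt_mul (Nat.cast_nonneg _)] at h2
    rw [le_div_iff₀ hs, sub_mul, one_div_mul_cancel hs.ne']
    linarith
  · filter_upwards [eventually_ge_atTop 1] with n hn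
    have hs : 0 < Real.sqrt n := Real.sqrt_pos.2 (by exact_mod_cast hn)
    have h2 : (Nat.sqrt (m * n) : ℝ) ≤ Real.sqrt ((m * n : ℕ) : ℝ) := Real.nat_sqrt_le_real_sqrt
    rw [Nat.cast_mul, Real.sqrt_mul (Nat.cast_nonneg _)] at h2
    rwa [div_le_iff₀ hs]

lemma div_tendsto (b : ℕ) (hb : 1 ≤ b) :
    Tendsto (fun n : ℕ => ((Nat.sqrt n / b : ℕ) : ℝ) / Real.sqrt n) atTop (𝓝 (1 / (b : ℝ))) := by
  have hb0 : (0 : ℝ) < b := by exact_mod_cast hb
  have h0 : Tendsto (fun n : ℕ => (Nat.sqrt n : ℝ) / Real.sqrt n) atTop (𝓝 1) := by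
    simpa using natsqrt_tendsto 1
  have h1 : Tendsto (fun n : ℕ => (Nat.sqrt n : ℝ) / Real.sqrt n / b - 1 / Real.sqrt n) atTop (𝓝 (1 / (b : ℝ))) := by
    simpa using (h0.div_const (b : ℝ)).sub inv_tendsto
  refine tendsto_of_tendsto_of_tendsto_of_le_of_le' h1 (h0.div_const (b : ℝ)) ?_ ?_
  · filter_upwards [eventually_ge_atTop 1] with n hn
    have hs : 0 < Real.sqrt n := Real.sqrt_pos.2 (by exact_mod_cast hn)
    have h2 : (Nat.sqrt n : ℝ) < b * (((Nat.sqrt n / b : ℕ) : ℝ) + 1) := by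
      exact_mod_cast Nat.lt_mul_div_succ (Nat.sqrt n) (by omega : 0 < b)
    rw [div_right_comm, ← sub_div]
    apply div_le_div_of_nonneg_right _ hs.le
    rw [sub_le_iff_le_add, div_le_iff₀ hb0]
    linarith
  · filter_upwards [eventually_ge_atTop 1] with n hn
    have hs : 0 < Real.sqrt n := Real.sqrt_pos.2 (by exact_mod_cast hn)
    rw [div_right_comm]
    apply div_le_div_of_nonneg_right _ hs.le
    exact Nat.cast_div_le

lemma lo_tendsto : Tendsto (fun n : ℕ => (lo n : ℝ) / Real.sqrt n) atTop (𝓝 (Real.sqrt 29)) := by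
  unfold lo
  exact_mod_cast natsqrt_tendsto 29

lemma hi_sub (b n : ℕ) : Nat.sqrt n / b ≤ Nat.sqrt (30 * n) :=
  (Nat.div_le_self _ _).trans (Nat.sqrt_le_sqrt (by omega))

lemma hi_tendsto (b : ℕ) (hb : 1 ≤ b) :
    Tendsto (fun n : ℕ => (hi b n : ℝ) / Real.sqrt n) atTop (𝓝 (Real.sqrt 30 - 1 / b)) := by
  have h1 := (natsqrt_tendsto 30).sub (div_tendsto b hb)
  push_cast at h1
  refine h1.congr fun n => ?_
  unfold hi
  rw [Nat.cast_sub (hi_sub b n), sub_div]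

lemma ratio_tendsto (f : ℕ → ℕ) (c : ℝ) (hc : 0 < c) (hf : Tendsto (fun n : ℕ => (f n : ℝ) / Real.sqrt n) atTop (𝓝 c))
    (k : ℕ) : Tendsto (fun n : ℕ => ((f n : ℝ) / Real.log (f n) ^ (k + 1)) /
      (Real.sqrt n / Real.log (Real.sqrt n) ^ (k + 1))) atTop (𝓝 c) := by
  have hlog : Tendsto (fun n : ℕ => Real.log (Real.sqrt n)) atTop atTop := Real.tendsto_log_atTop.comp sqrt_tendsto
  have h1 : Tendsto (fun n : ℕ => Real.log ((f n : ℝ) / Real.sqrt n) / Real.log (Real.sqrt n)) atTop (𝓝 0) :=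
    (hf.log hc.ne').div_atTop hlog
  have h2 : Tendsto (fun n : ℕ => Real.log (f n) / Real.log (Real.sqrt n)) atTop (𝓝 1) := by
    have h3 : Tendsto (fun n : ℕ => 1 + Real.log ((f n : ℝ) / Real.sqrt n) / Real.log (Real.sqrt n)) atTop (𝓝 1) := by
      simpa using tendsto_const_nhds.add h1
    refine h3.congr' ?_
    filter_upwards [hf.eventually (lt_mem_nhds hc), hlog.eventually_gt_atTop 0, eventually_ge_atTop 1] with n h4 h5 h6
    have hs : 0 < Real.sqrt n := Real.sqrt_pos.2 (by exact_mod_cast h6)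
    have hfn : (f n : ℝ) ≠ 0 := by
      intro h7
      rw [h7, zero_div] at h4
      exact lt_irrefl _ h4
    rw [Real.log_div hfn hs.ne', sub_div, div_self h5.ne']
    ring
  have h3 : Tendsto (fun n : ℕ => ((f n : ℝ) / Real.sqrt n) * ((Real.log (f n) / Real.log (Real.sqrt n))⁻¹) ^ (k + 1))
      atTop (𝓝 c) := by
    have h4 := hf.mul ((h2.inv₀ one_ne_zero).pow (k + 1))
    simpa using h4
  refine h3.congr fun n => ?_
  rw [inv_div, div_pow, div_mul_div_comm, div_div_div_eq, mul_comm (Real.sqrt n)]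

/-- the asymptotics of the two ends -/
theorem asy (k b : ℕ) (hb : 1 ≤ b) (δ : ℝ) (hδ : 0 < δ) : ∀ᶠ n : ℕ in atTop,
    1 < Real.log (Real.sqrt n) ∧ 2 * Real.sqrt n ≤ lo n ∧ (lo n : ℝ) ≤ 6 * Real.sqrt n ∧
    2 * Real.sqrt n ≤ hi b n ∧ (hi b n : ℝ) ≤ 6 * Real.sqrt n ∧
    |(lo n : ℝ) / Real.log (lo n) ^ (k + 1) - Real.sqrt 29 * (Real.sqrt n / Real.log (Real.sqrt n) ^ (k + 1))| ≤
      δ * (Real.sqrt n / Real.log (Real.sqrt n) ^ (k + 1)) ∧
    |(hi b n : ℝ) / Real.log (hi b n) ^ (k + 1) - (Real.sqrt 30 - 1 / b) * (Real.sqrt n / Real.log (Real.sqrt n) ^ (k + 1))| ≤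
      δ * (Real.sqrt n / Real.log (Real.sqrt n) ^ (k + 1)) := by
  have h29 : (5 : ℝ) < Real.sqrt 29 := by
    rw [Real.lt_sqrt (by norm_num)]; norm_num
  have h29' : Real.sqrt 29 < 6 := by
    rw [Real.sqrt_lt' (by norm_num)]; norm_num
  have h30 : (5 : ℝ) < Real.sqrt 30 := by
    rw [Real.lt_sqrt (by norm_num)]; norm_num
  have h30' : Real.sqrt 30 < 6 := by
    rw [Real.sqrt_lt' (by norm_num)]; norm_num
  have hb1 : (1 : ℝ) / b ≤ 1 := by
    rw [div_le_one (by exact_mod_cast hb)]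
    exact_mod_cast hb
  have hb0 : (0 : ℝ) ≤ 1 / b := by positivity
  have hlog : Tendsto (fun n : ℕ => Real.log (Real.sqrt n)) atTop atTop := Real.tendsto_log_atTop.comp sqrt_tendsto
  have e1 := ratio_tendsto lo (Real.sqrt 29) (by linarith) lo_tendsto k
  have e2 := ratio_tendsto (hi b) (Real.sqrt 30 - 1 / b) (by linarith) (hi_tendsto b hb) k
  have e3 := (Metric.tendsto_nhds.1 e1) δ hδ
  have e4 := (Metric.tendsto_nhds.1 e2) δ hδ
  filter_upwards [e3, e4, lo_tendsto.eventually (lt_mem_nhds (by linarith : (2 : ℝ) < Real.sqrt 29)),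
    lo_tendsto.eventually (gt_mem_nhds h29'),
    (hi_tendsto b hb).eventually (lt_mem_nhds (by linarith : (2 : ℝ) < Real.sqrt 30 - 1 / b)),
    (hi_tendsto b hb).eventually (gt_mem_nhds (by linarith : Real.sqrt 30 - 1 / b < 6)),
    hlog.eventually_gt_atTop 1, eventually_ge_atTop 1] with n h3 h4 h5 h6 h7 h8 h9 h10
  have hs : 0 < Real.sqrt n := Real.sqrt_pos.2 (by exact_mod_cast h10)
  rw [lt_div_iff₀ hs] at h5 h7
  rw [div_lt_iff₀ hs] at h6 h8
  have hY : 0 < Real.sqrt n / Real.log (Real.sqrt n) ^ (k + 1) := div_pos hs (pow_pos (by linarith) _)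
  rw [Real.dist_eq] at h3 h4
  refine ⟨h9, h5.le, h6.le, h7.le, h8.le, ?_, ?_⟩
  · rw [div_sub' hY.ne', abs_div, abs_of_pos hY, div_lt_iff₀ hY] at h3
    rw [mul_comm (Real.sqrt 29)]
    exact h3.le
  · rw [div_sub' hY.ne', abs_div, abs_of_pos hY, div_lt_iff₀ hY] at h4
    rw [mul_comm (Real.sqrt 30 - 1 / b)]
    exact h4.le

end Pool.Agent.K1H84.FS
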