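import Pool.Agent.K1H51.HL.Fin
import Pool.Agent.K1H51.LD.Frac

/-! The formula of Hardy and Littlewood for families of shifts with a small large spectrum (copied from helper51's
`MP_68a45e_nt.SmallSpectrumShifts`). -/

set_option autoImplicit false

namespace Pool.Agent.K1H84.FS

open Finset

open Classical in
/-- The large spectrum modulo `M` of the family `s j`, `j ∈ I`, at the level `η`: the frequencies `t` modulo `M`
for which the sum of `e (t (s j) / M)` over the `j ∈ I` has absolute value larger than `η |I|`. -/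
noncomputable def spectrum {ι : Type} (M : ℕ) (I : Finset ι) (s : ι → ℤ) (η : ℝ) : Finset ℕ :=
  (range M).filter (fun t : ℕ => η * I.card <
    ‖∑ j ∈ I, Complex.exp (2 * Real.pi * Complex.I * (((t : ℝ) * ((s j : ℝ) / M) : ℝ) : ℂ))‖)

/-- `ν(p)`: the number of the residues `r < p` with `p ∣ r (r + a 1) ... (r + a k)`. -/
def nu {k : ℕ} (a : Fin k → ℕ) (p : ℕ) : ℕ := ((range p).filter (fun r => p ∣ r ∨ ∃ i, p ∣ r + a i)).card

/-- The product over the primes `p ≤ z` of `(1 - ν(p) / p) / (1 - 1 / p) ^ (k + 1)`. -/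
noncomputable def sing {k : ℕ} (a : Fin k → ℕ) (z : ℕ) : ℝ :=
  ∏ p ∈ (Icc 1 z).filter Nat.Prime, (1 - (nu a p : ℝ) / p) / (1 - 1 / (p : ℝ)) ^ (k + 1)

/-- The primes `p ≤ N` for which all the `p + a i` are primes. -/
def tuples {k : ℕ} (a : Fin k → ℕ) (N : ℕ) : Finset ℕ := (Icc 1 N).filter (fun p => p.Prime ∧ ∀ i, (p + a i).Prime)

/-- For every prime `p` there is an integer `r` such that `p` divides neither `r` nor any `r + a i`. -/
def Admissible {k : ℕ} (a : Fin k → ℕ) : Prop :=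
  ∀ p : ℕ, p.Prime → ∃ r : ℤ, ¬ (p : ℤ) ∣ r ∧ ∀ i, ¬ (p : ℤ) ∣ r + (a i : ℤ)

/-- The formula of Hardy and Littlewood for the shifts `a 1, ..., a k` and the primes up to `N`: the
singular series converges, its value `S` predicts the number of the `p ∈ tuples a N`, counted with the weights
`log p * ∏ i, log (p + a i)`, with an error of at most `N / log ^ U N`, and, if the shifts are admissible, `S` is
positive and `S N / log ^ (k + 1) N` predicts the number of the `p ∈ tuples a N` with a relative error of at most `ε`. -/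
def Holds {k : ℕ} (ε : ℝ) (U N : ℕ) (a : Fin k → ℕ) : Prop :=
  ∃ S : ℝ, Filter.Tendsto (fun z => sing a z) Filter.atTop (nhds S) ∧
    |∑ p ∈ tuples a N, Real.log p * ∏ i, Real.log ((p : ℝ) + a i) - S * N| ≤ (N : ℝ) / Real.log N ^ U ∧
    (Admissible a → 0 < S ∧
      |((tuples a N).card : ℝ) - S * (N / Real.log N ^ (k + 1))| ≤ ε * (S * (N / Real.log N ^ (k + 1))))

open Classical in
/-- The number of the vectors `q`, with `q i ∈ I i` and `0 ≤ s i (q i) ≤ B N` for all `i`, for which `Holds` fails for the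
shifts `s i (q i)`. -/
noncomputable def exceptions {k : ℕ} {ι : Fin k → Type} (ε : ℝ) (B U N : ℕ) (I : ∀ i, Finset (ι i)) (s : ∀ i, ι i → ℤ) : ℝ :=
  (((Fintype.piFinset I).filter (fun q => (∀ i, 0 ≤ s i (q i) ∧ s i (q i) ≤ B * N) ∧
    ¬ Holds ε U N (fun i => (s i (q i)).toNat))).card : ℝ)

/-- The pairs `(p, u)` with a prime `p ≤ P` and `1 ≤ u ≤ S`. -/
def pairs (P S : ℕ) : Finset (ℕ × ℕ) := ((Icc 1 P).filter Nat.Prime) ×ˢ (Icc 1 S)

/-- The least non-negative residue of `c + u / p` modulo `M`, for the pair `j = (p, u)`. -/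
def frac (M : ℕ) (c : ℤ) (j : ℕ × ℕ) : ℤ := (c + j.2 * (((j.1 : ZMod M)⁻¹.val : ℕ) : ℤ)) % M

lemma nu_eq {k : ℕ} (a : Fin k → ℕ) (p : ℕ) : Pool.Agent.H373R2.T7.nuP (fun i => (a i : ℤ)) p = nu a p := by
  unfold Pool.Agent.H373R2.T7.nuP nu
  congr 1
  apply filter_congr
  intro r _
  have h1 : ∀ i, ((p : ℤ) ∣ (r : ℤ) + (a i : ℤ)) ↔ p ∣ r + a i := by
    intro i
    rw [← Int.natCast_add, Int.natCast_dvd_natCast]
  simp only [h1]

lemma sing_eq {k : ℕ} (a : Fin k → ℕ) : (fun z => Pool.Agent.H373R2.T7.singZ (fun i => (a i : ℤ)) z) = fun z => sing a z := by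
  funext z
  unfold Pool.Agent.H373R2.T7.singZ sing
  apply prod_congr rfl
  intro p _
  rw [nu_eq]

lemma count_eq {k : ℕ} (a : Fin k → ℕ) (N : ℕ) : Pool.Agent.H373R2.T7.tupleCount (fun i => (a i : ℤ)) N =
    ∑ p ∈ tuples a N, Real.log p * ∏ i, Real.log ((p : ℝ) + a i) := Pool.Agent.H560R3.GB.tupleCount_nat a N

theorem general (k B U : ℕ) (hk : 1 ≤ k) (ε : ℝ) (hε : 0 < ε) : ∃ U1 : ℕ, 1 ≤ U1 ∧ ∀ K : ℕ, ∃ N₀ : ℕ, ∀ N : ℕ, N₀ ≤ N →
    ∀ (ι : Fin k → Type) (I : ∀ i, Finset (ι i)) (s : ∀ i, ι i → ℤ) (M : Fin k → ℕ), (∀ i, (3 * B + 5) * N ≤ M i) →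
    (∀ i, ((spectrum (M i) (I i) (s i) (1 / Real.log N ^ U1)).card : ℝ) * N ≤ Real.log N ^ K * M i) →
    exceptions ε B U N I s ≤ (∏ i, ((I i).card : ℝ)) / Real.log N ^ U := by
  classical
  obtain ⟨c, hc, hlow⟩ := Pool.Agent.H373R2.T7.singZ_low k
  obtain ⟨U1, hU1, h0⟩ := Pool.Agent.K1H51.HL.small_tuples k B (U + 1) hk
  refine ⟨U1, hU1, fun K => ?_⟩
  obtain ⟨N₀, h0⟩ := h0 K
  obtain ⟨N₁, h1⟩ := Pool.Agent.H560R3.GB.tuple_transfer k B c ε hc hε
  obtain ⟨N₂, h2⟩ := Pool.Agent.H373R2.T7.ev_L' 1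
  refine ⟨N₀ + N₁ + N₂ + 3, fun N hN ι I s M hM hspec => ?_⟩
  have hL := h2 N (by omega)
  have hL0 : 0 < Real.log (N : ℝ) := by linarith
  have hN0 : (0 : ℝ) ≤ N := Nat.cast_nonneg _
  obtain ⟨𝒮, h𝒮⟩ : ∃ 𝒮 : Finset (∀ i, ι i), 𝒮 = (Fintype.piFinset I).filter (fun q => (∀ i, 0 ≤ s i (q i) ∧ s i (q i) ≤ B * N) ∧
    ¬ Holds ε U N (fun i => (s i (q i)).toNat)) := ⟨_, rfl⟩
  have h3 := h0 N (by omega) ι I s M hM hspec 𝒮 (by
    intro q hq
    rw [h𝒮, mem_filter, Fintype.mem_piFinset] at hq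
    refine ⟨fun i => ⟨hq.1 i, hq.2.1 i⟩, fun hcon => hq.2.2 ?_⟩
    obtain ⟨S, hS, hS2⟩ := hcon
    have hcast : (fun i => s i (q i)) = fun i => (((s i (q i)).toNat : ℕ) : ℤ) := by
      funext i
      rw [Int.toNat_of_nonneg (hq.2.1 i).1]
    rw [hcast] at hS hS2
    have hS' := hS
    rw [sing_eq] at hS
    refine ⟨S, hS, ?_, fun hadm => ?_⟩
    · rw [← count_eq]
      refine hS2.trans ?_
      apply div_le_div_of_nonneg_left hN0 (by positivity)
      exact pow_le_pow_right₀ hL (by omega)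
    · have hcS : c ≤ S := ge_of_tendsto' hS' (hlow _ hadm)
      refine ⟨lt_of_lt_of_le hc hcS, ?_⟩
      apply h1 N (by omega) (fun i => (s i (q i)).toNat) (fun i => ?_) S hcS
      · refine hS2.trans ?_
        apply div_le_div_of_nonneg_left hN0 hL0
        exact le_self_pow₀ hL (by omega)
      · have h5 : s i (q i) ≤ ((B * N : ℕ) : ℤ) := by push_cast; exact (hq.2.1 i).2
        omega)
  unfold exceptions
  rw [← h𝒮]
  refine h3.trans ?_
  apply div_le_div_of_nonneg_left (prod_nonneg fun i _ => Nat.cast_nonneg _) (by positivity)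
  exact pow_le_pow_right₀ hL (by omega)

end Pool.Agent.K1H84.FS
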