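import Mathlib
import Pool.Agent.K1H84.FS.Asy
import Pool.Agent.K1H84.FS.Gen
import Pool.Agent.H141R2.FS.Main1

/-! Tuples of represented primes. -/

set_option autoImplicit false

namespace Pool.Agent.K1H84.FS

open Finset

/-- `p` is the value of `x + 2 y + 5 z` at a representation of `n` as a sum of four squares -/
def Val (n p : ℕ) : Prop := ∃ x y z w : ℕ, n = x ^ 2 + y ^ 2 + z ^ 2 + w ^ 2 ∧ p = x + 2 * y + 5 * z

open Classical in
/-- the represented tuples -/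
noncomputable def places {k : ℕ} (b n : ℕ) (a : Fin k → ℕ) : Finset ℕ :=
  (Icc 1 (30 * n)).filter (fun p => 29 * n < p ^ 2 ∧ (p + Nat.sqrt n / b) ^ 2 ≤ 30 * n ∧
    (p.Prime ∧ Val n p) ∧ ∀ i, (p + a i).Prime ∧ Val n (p + a i))

/-- the main term without the singular series -/
noncomputable def mainTerm (k b n : ℕ) : ℝ :=
  (Real.sqrt 30 - Real.sqrt 29 - 1 / b) * (Real.sqrt n / Real.log (Real.sqrt n) ^ (k + 1))

lemma cop30 {n p : ℕ} (hn : 1 ≤ n) (hp : p.Prime) (h : 29 * n ≤ p ^ 2) : Nat.Coprime p 30 := by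
  have h6 : 6 ≤ p := by
    by_contra hc
    have : p ≤ 5 := by omega
    have : p ^ 2 ≤ 5 ^ 2 := Nat.pow_le_pow_left this 2
    omega
  rw [Nat.Prime.coprime_iff_not_dvd hp]
  intro hd
  have h1 : p ∣ 2 * (3 * 5) := by norm_num; exact hd
  rcases (Nat.Prime.dvd_mul hp).1 h1 with h2 | h2
  · have := Nat.le_of_dvd (by norm_num) h2
    omega
  · rcases (Nat.Prime.dvd_mul hp).1 h2 with h3 | h3
    · have := Nat.le_of_dvd (by norm_num) h3
      omega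
    · have := Nat.le_of_dvd (by norm_num) h3
      omega

lemma val_of {n p : ℕ} (hn : 1 ≤ n) (h4 : ¬ 4 ∣ n) (hp : p.Prime) (h1 : 29 * n ≤ p ^ 2) (h2 : p ^ 2 ≤ 30 * n) :
    Val n p := by
  obtain ⟨x, y, z, w, h5, h6⟩ := Pool.Agent.H141R2.FS.rep h4 (cop30 hn hp h1) h1 h2
  exact ⟨x, y, z, w, h5, h6.symm⟩

lemma places_card {k b n : ℕ} (hn : 1 ≤ n) (h4 : ¬ 4 ∣ n) (a : Fin k → ℕ) (ha : ∀ i, a i ≤ Nat.sqrt n / b)
    (hlh : lo n ≤ hi b n) :
    ((places b n a).card : ℝ) = (tuples a (hi b n)).card - (tuples a (lo n)).card := by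
  classical
  have h1 : places b n a = (tuples a (hi b n)).filter (fun p => ¬ p ≤ lo n) := by
    ext p
    unfold places tuples
    simp only [mem_filter, mem_Icc, not_le]
    constructor
    · rintro ⟨⟨g1, g2⟩, g3, g4, ⟨g5, g6⟩, g7⟩
      have g8 : p + Nat.sqrt n / b ≤ Nat.sqrt (30 * n) := Nat.le_sqrt'.2 g4
      refine ⟨⟨⟨g1, ?_⟩, g5, fun i => (g7 i).1⟩, ?_⟩
      · unfold hi
        omega
      · unfold lo
        exact Nat.sqrt_lt'.2 g3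
    · rintro ⟨⟨⟨g1, g2⟩, g5, g7⟩, g8⟩
      unfold hi at g2
      have g9 : p + Nat.sqrt n / b ≤ Nat.sqrt (30 * n) := by
        have := hi_sub b n
        omega
      have g10 : (p + Nat.sqrt n / b) ^ 2 ≤ 30 * n := Nat.le_sqrt'.1 g9
      have g11 : 29 * n < p ^ 2 := by
        unfold lo at g8
        exact Nat.sqrt_lt'.1 g8
      have g12 : p ^ 2 ≤ 30 * n := (Nat.pow_le_pow_left (Nat.le_add_right _ _) 2).trans g10
      refine ⟨⟨g1, ?_⟩, g11, g10, ⟨g5, val_of hn h4 g5 g11.le g12⟩, fun i => ⟨g7 i, val_of hn h4 (g7 i) ?_ ?_⟩⟩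
      · calc p = p ^ 1 := (pow_one p).symm
          _ ≤ p ^ 2 := Nat.pow_le_pow_right g1 (by norm_num)
          _ ≤ 30 * n := g12
      · exact g11.le.trans (Nat.pow_le_pow_left (Nat.le_add_right _ _) 2)
      · exact (Nat.pow_le_pow_left (Nat.add_le_add_left (ha i) _) 2).trans g10
  have h2 : tuples a (lo n) = (tuples a (hi b n)).filter (fun p => p ≤ lo n) := by
    ext p
    unfold tuples
    simp only [mem_filter, mem_Icc]
    constructor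
    · rintro ⟨⟨g1, g2⟩, g3⟩
      exact ⟨⟨⟨g1, g2.trans hlh⟩, g3⟩, g2⟩
    · rintro ⟨⟨⟨g1, _⟩, g3⟩, g2⟩
      exact ⟨⟨g1, g2⟩, g3⟩
  have h3 := card_filter_add_card_filter_not (s := tuples a (hi b n)) (fun p => p ≤ lo n)
  rw [h1, h2, ← h3]
  push_cast
  ring

/-- the formula for the represented tuples -/
def HoldsR {k : ℕ} (ε : ℝ) (b n : ℕ) (a : Fin k → ℕ) : Prop :=
  ∃ S : ℝ, Filter.Tendsto (fun z => sing a z) Filter.atTop (nhds S) ∧
    (Admissible a → 0 < S ∧ |((places b n a).card : ℝ) - S * mainTerm k b n| ≤ ε * (S * mainTerm k b n))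

lemma transfer {k b n U : ℕ} {ε ε' δ : ℝ} (hn : 1 ≤ n) (h4 : ¬ 4 ∣ n) (a : Fin k → ℕ)
    (ha : ∀ i, a i ≤ Nat.sqrt n / b) (hlh : lo n ≤ hi b n)
    (hκ : 0 < Real.sqrt 30 - Real.sqrt 29 - 1 / b) (hε : 0 < ε) (hε' : ε' = ε * (Real.sqrt 30 - Real.sqrt 29 - 1 / b) / 48)
    (hδ1 : δ ≤ 1) (hδ2 : δ ≤ ε * (Real.sqrt 30 - Real.sqrt 29 - 1 / b) / 4)
    (hlog : 1 < Real.log (Real.sqrt n))
    (e1 : |(lo n : ℝ) / Real.log (lo n) ^ (k + 1) - Real.sqrt 29 * (Real.sqrt n / Real.log (Real.sqrt n) ^ (k + 1))| ≤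
      δ * (Real.sqrt n / Real.log (Real.sqrt n) ^ (k + 1)))
    (e2 : |(hi b n : ℝ) / Real.log (hi b n) ^ (k + 1) - (Real.sqrt 30 - 1 / b) * (Real.sqrt n / Real.log (Real.sqrt n) ^ (k + 1))| ≤
      δ * (Real.sqrt n / Real.log (Real.sqrt n) ^ (k + 1)))
    (H0 : Holds ε' U (lo n) a) (H1 : Holds ε' U (hi b n) a) : HoldsR ε b n a := by
  obtain ⟨S, hS, -, h0⟩ := H0
  obtain ⟨S', hS', -, h1⟩ := H1
  have hSS : S' = S := tendsto_nhds_unique hS' hS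
  subst hSS
  refine ⟨S', hS, fun hadm => ?_⟩
  obtain ⟨hS0, h0⟩ := h0 hadm
  obtain ⟨-, h1⟩ := h1 hadm
  refine ⟨hS0, ?_⟩
  rw [places_card hn h4 a ha hlh]
  have hs : 0 < Real.sqrt n := Real.sqrt_pos.2 (by exact_mod_cast hn)
  have hY : 0 < Real.sqrt n / Real.log (Real.sqrt n) ^ (k + 1) := div_pos hs (pow_pos (by linarith) _)
  have h29 : Real.sqrt 29 < 6 := by
    rw [Real.sqrt_lt' (by norm_num)]; norm_num
  have h30 : Real.sqrt 30 < 6 := by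
    rw [Real.sqrt_lt' (by norm_num)]; norm_num
  have hb0 : (0 : ℝ) ≤ 1 / b := by positivity
  unfold mainTerm
  obtain ⟨κ, hκ'⟩ : ∃ κ, κ = Real.sqrt 30 - Real.sqrt 29 - 1 / (b : ℝ) := ⟨_, rfl⟩
  rw [← hκ'] at hκ hε' hδ2 ⊢
  set Y := Real.sqrt n / Real.log (Real.sqrt n) ^ (k + 1) with hYd
  set X0 := (lo n : ℝ) / Real.log (lo n) ^ (k + 1) with hX0
  set X1 := (hi b n : ℝ) / Real.log (hi b n) ^ (k + 1) with hX1
  set T0 := ((tuples a (lo n)).card : ℝ) with hT0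
  set T1 := ((tuples a (hi b n)).card : ℝ) with hT1
  rw [abs_le] at h0 h1 e1 e2
  have hX0u : X0 ≤ 7 * Y := by nlinarith [e1.2]
  have hX1u : X1 ≤ 7 * Y := by nlinarith [e2.2, mul_nonneg hb0 hY.le]
  have hκε : 0 < ε * κ := mul_pos hε hκ
  have hε0 : 0 < ε' := by rw [hε']; positivity
  have hSY : 0 < S' * Y := mul_pos hS0 hY
  have a1 : ε' * (S' * X0) ≤ ε' * (S' * (7 * Y)) :=
    mul_le_mul_of_nonneg_left (mul_le_mul_of_nonneg_left hX0u hS0.le) hε0.le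
  have a2 : ε' * (S' * X1) ≤ ε' * (S' * (7 * Y)) :=
    mul_le_mul_of_nonneg_left (mul_le_mul_of_nonneg_left hX1u hS0.le) hε0.le
  have a3 : ε' * (S' * (7 * Y)) = 7 / 48 * (ε * κ * (S' * Y)) := by rw [hε']; ring
  have b1 := mul_le_mul_of_nonneg_left e1.1 hS0.le
  have b2 := mul_le_mul_of_nonneg_left e1.2 hS0.le
  have b3 := mul_le_mul_of_nonneg_left e2.1 hS0.le
  have b4 := mul_le_mul_of_nonneg_left e2.2 hS0.le
  have a4 : S' * (δ * Y) ≤ 1 / 4 * (ε * κ * (S' * Y)) := by nlinarith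
  have a5 : 0 < ε * κ * (S' * Y) := mul_pos hκε hSY
  have c1 : S' * (κ * Y) = S' * ((Real.sqrt 30 - 1 / b) * Y) - S' * (Real.sqrt 29 * Y) := by rw [hκ']; ring
  have c2 : ε * (S' * (κ * Y)) = ε * κ * (S' * Y) := by ring
  rw [c2, abs_le]
  constructor
  · rw [c1]
    nlinarith [h0.1, h0.2, h1.1, h1.2]
  · rw [c1]
    nlinarith [h0.1, h0.2, h1.1, h1.2]

end Pool.Agent.K1H84.FS
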