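import Mathlib
import Pool.Agent.K1H84.FS.Core

/-! Tuples of represented primes for almost all shifts from thin families. -/

set_option autoImplicit false

namespace Pool.Agent.K1H84.FS

open Finset

open Classical in
/-- the vectors of shifts up to `⌊√n⌋ / b` from the families for which the formula fails -/
noncomputable def exc {k : ℕ} {ι : Fin k → Type} (ε : ℝ) (b n : ℕ) (I : ∀ i, Finset (ι i)) (s : ∀ i, ι i → ℤ) : ℝ :=
  (((Fintype.piFinset I).filter (fun q => (∀ i, 0 ≤ s i (q i) ∧ s i (q i) ≤ (Nat.sqrt n / b : ℕ)) ∧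
    ¬ HoldsR ε b n (fun i => (s i (q i)).toNat))).card : ℝ)

lemma kappa_pos {b : ℕ} (hb : 12 ≤ b) : 0 < Real.sqrt 30 - Real.sqrt 29 - 1 / (b : ℝ) := by
  have h29 : Real.sqrt 29 < 5.386 := by
    rw [Real.sqrt_lt' (by norm_num)]; norm_num
  have h30 : (5.477 : ℝ) < Real.sqrt 30 := by
    rw [Real.lt_sqrt (by norm_num)]; norm_num
  have hb2 : (1 : ℝ) / b ≤ 1 / 12 := by
    apply one_div_le_one_div_of_le (by norm_num)
    exact_mod_cast hb
  linarith

lemma spectrum_mono {ι : Type} (M : ℕ) (I : Finset ι) (s : ι → ℤ) {η η' : ℝ} (h : η ≤ η') :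
    spectrum M I s η' ⊆ spectrum M I s η := by
  intro t ht
  unfold spectrum at ht ⊢
  rw [mem_filter] at ht ⊢
  exact ⟨ht.1, lt_of_le_of_lt (mul_le_mul_of_nonneg_right h (Nat.cast_nonneg _)) ht.2⟩

theorem gen (k b U : ℕ) (hk : 1 ≤ k) (hb : 12 ≤ b) (ε : ℝ) (hε : 0 < ε) : ∃ U1 : ℕ, ∀ K : ℕ, ∃ n₀ : ℕ, ∀ n : ℕ, n₀ ≤ n →
    ¬ 4 ∣ n → ∀ (ι : Fin k → Type) (I : ∀ i, Finset (ι i)) (s : ∀ i, ι i → ℤ) (M : Fin k → ℕ),
    (∀ i, 48 * Real.sqrt n ≤ M i) →
    (∀ i, ((spectrum (M i) (I i) (s i) (1 / Real.log n ^ U1)).card : ℝ) * Real.sqrt n ≤ Real.log n ^ K * M i) →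
    exc ε b n I s ≤ (∏ i, ((I i).card : ℝ)) / Real.log n ^ U := by
  classical
  have hκ := kappa_pos hb
  obtain ⟨ε', hε'⟩ : ∃ ε', ε' = ε * (Real.sqrt 30 - Real.sqrt 29 - 1 / (b : ℝ)) / 48 := ⟨_, rfl⟩
  have hε'0 : 0 < ε' := by rw [hε']; positivity
  obtain ⟨δ, hδ⟩ : ∃ δ, δ = min 1 (ε * (Real.sqrt 30 - Real.sqrt 29 - 1 / (b : ℝ)) / 4) := ⟨_, rfl⟩
  have hδ0 : 0 < δ := by rw [hδ]; positivity
  obtain ⟨U1, hU1, h1⟩ := general k 1 (U + 1) hk ε' hε'0
  refine ⟨U1, fun K => ?_⟩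
  obtain ⟨N₀, h2⟩ := h1 (K + 1)
  have hlt : ∀ᶠ n : ℕ in Filter.atTop, 2 * (6 * 2 ^ K + 2 ^ (U + 2) + 1 : ℝ) < Real.log n :=
    (Real.tendsto_log_atTop.comp tendsto_natCast_atTop_atTop).eventually_gt_atTop _
  have hsq : ∀ᶠ n : ℕ in Filter.atTop, (N₀ : ℝ) < Real.sqrt n := sqrt_tendsto.eventually_gt_atTop _
  obtain ⟨n1, hn1⟩ := Filter.eventually_atTop.1 ((asy k b (by omega) δ hδ0).and (hlt.and hsq))
  have hdiff : ∀ᶠ n : ℕ in Filter.atTop, lo n ≤ hi b n := by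
    have h3 := (hi_tendsto b (by omega)).sub lo_tendsto
    filter_upwards [h3.eventually (lt_mem_nhds (by linarith : (0 : ℝ) < Real.sqrt 30 - 1 / b - Real.sqrt 29)),
      Filter.eventually_ge_atTop 1] with n h4 h5
    have hs : 0 < Real.sqrt n := Real.sqrt_pos.2 (by exact_mod_cast h5)
    rw [← sub_div] at h4
    have h6 : (0 : ℝ) < (hi b n : ℝ) - lo n := by
      by_contra h7
      exact absurd h4 (not_lt.2 (div_nonpos_of_nonpos_of_nonneg (not_lt.1 h7) hs.le))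
    have h8 : (lo n : ℝ) ≤ hi b n := by linarith
    exact_mod_cast h8
  obtain ⟨n2, hn2⟩ := Filter.eventually_atTop.1 hdiff
  refine ⟨n1 + n2 + 36, fun n hn h4 ι I s M hM hspec => ?_⟩
  obtain ⟨⟨g1, g2, g3, g4, g5, g6, g7⟩, g8, g9⟩ := hn1 n (by omega)
  have hlh := hn2 n (by omega)
  have hn36 : (36 : ℝ) ≤ n := by exact_mod_cast (by omega : 36 ≤ n)
  have hn0 : (0 : ℝ) < n := by linarith
  have hs6 : (6 : ℝ) ≤ Real.sqrt n := by
    rw [Real.le_sqrt (by norm_num) hn0.le]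
    linarith
  have hs0 : 0 < Real.sqrt n := by linarith
  have hss : Real.sqrt n * Real.sqrt n = n := Real.mul_self_sqrt hn0.le
  have hlogs : Real.log (Real.sqrt n) = Real.log n / 2 := Real.log_sqrt hn0.le
  obtain ⟨L, hL⟩ : ∃ L, L = Real.log (n : ℝ) := ⟨_, rfl⟩
  rw [← hL] at g8 hspec hlogs ⊢
  have hK2 : (0 : ℝ) < 6 * 2 ^ K := by positivity
  have hU2 : (0 : ℝ) < 2 ^ (U + 2) := by positivity
  have hL1 : 1 ≤ L := by linarith
  have hL0 : 0 < L := by linarith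
  -- the two ends
  have key : ∀ N : ℕ, 2 * Real.sqrt n ≤ N → (N : ℝ) ≤ 6 * Real.sqrt n →
      exceptions ε' 1 (U + 1) N I s ≤ (∏ i, ((I i).card : ℝ)) / L ^ U / 2 := by
    intro N hN1 hN2
    have hNs : Real.sqrt n ≤ N := by linarith
    have hN0 : (0 : ℝ) < N := by linarith
    obtain ⟨ℓ, hℓ⟩ : ∃ ℓ, ℓ = Real.log (N : ℝ) := ⟨_, rfl⟩
    have hℓ1 : L / 2 ≤ ℓ := by
      rw [← hlogs, hℓ]
      exact Real.log_le_log hs0 hNs
    have hℓ2 : ℓ ≤ L := by
      rw [hℓ, hL]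
      apply Real.log_le_log hN0
      nlinarith
    have hℓ0 : 0 < ℓ := by linarith
    have h3 := h2 N (by
      have : (N₀ : ℝ) ≤ N := by linarith
      exact_mod_cast this) ι I s M (fun i => by
        have h5 : (((3 * 1 + 5) * N : ℕ) : ℝ) ≤ M i := by
          push_cast
          linarith [hM i]
        exact_mod_cast h5) (fun i => by
        rw [← hℓ]
        have h5 : spectrum (M i) (I i) (s i) (1 / ℓ ^ U1) ⊆ spectrum (M i) (I i) (s i) (1 / L ^ U1) := by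
          apply spectrum_mono
          apply one_div_le_one_div_of_le (by positivity)
          exact pow_le_pow_left₀ hℓ0.le hℓ2 _
        have h6 : ((spectrum (M i) (I i) (s i) (1 / ℓ ^ U1)).card : ℝ) ≤
            ((spectrum (M i) (I i) (s i) (1 / L ^ U1)).card : ℝ) := by exact_mod_cast card_le_card h5
        have h7 : L ^ K ≤ (2 * ℓ) ^ K := pow_le_pow_left₀ hL0.le (by linarith) _
        have hMi : (0 : ℝ) ≤ M i := Nat.cast_nonneg _
        calc ((spectrum (M i) (I i) (s i) (1 / ℓ ^ U1)).card : ℝ) * N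
            ≤ ((spectrum (M i) (I i) (s i) (1 / L ^ U1)).card : ℝ) * (6 * Real.sqrt n) :=
              mul_le_mul h6 hN2 hN0.le (Nat.cast_nonneg _)
          _ = 6 * (((spectrum (M i) (I i) (s i) (1 / L ^ U1)).card : ℝ) * Real.sqrt n) := by ring
          _ ≤ 6 * (L ^ K * M i) := by linarith [hspec i]
          _ ≤ 6 * ((2 * ℓ) ^ K * M i) := by
              have := mul_le_mul_of_nonneg_right h7 hMi
              linarith
          _ = (6 * 2 ^ K) * (ℓ ^ K * M i) := by rw [mul_pow]; ring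
          _ ≤ ℓ * (ℓ ^ K * M i) := by
              apply mul_le_mul_of_nonneg_right _ (by positivity)
              linarith
          _ = ℓ ^ (K + 1) * M i := by rw [pow_succ]; ring)
    refine h3.trans ?_
    rw [← hℓ, div_div]
    apply div_le_div_of_nonneg_left (prod_nonneg fun i _ => Nat.cast_nonneg _) (by positivity)
    calc L ^ U * 2 ≤ (2 * ℓ) ^ U * 2 := by
          apply mul_le_mul_of_nonneg_right _ (by norm_num)
          exact pow_le_pow_left₀ hL0.le (by linarith) _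
      _ = 2 ^ (U + 1) * ℓ ^ U := by rw [mul_pow, pow_succ]; ring
      _ ≤ ℓ * ℓ ^ U := by
          apply mul_le_mul_of_nonneg_right _ (by positivity)
          have : (2 : ℝ) ^ (U + 1) ≤ 2 ^ (U + 2) := pow_le_pow_right₀ (by norm_num) (by omega)
          linarith
      _ = ℓ ^ (U + 1) := by rw [pow_succ]; ring
  have k0 := key (lo n) g2 g3
  have k1 := key (hi b n) g4 g5
  unfold exceptions at k0 k1
  unfold exc
  have hD0 : Nat.sqrt n / b ≤ lo n :=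
    (Nat.div_le_self _ _).trans (Nat.sqrt_le_sqrt (by omega))
  have hD1 : Nat.sqrt n / b ≤ hi b n := hD0.trans hlh
  have hsub : (Fintype.piFinset I).filter (fun q => (∀ i, 0 ≤ s i (q i) ∧ s i (q i) ≤ (Nat.sqrt n / b : ℕ)) ∧
      ¬ HoldsR ε b n (fun i => (s i (q i)).toNat)) ⊆
      (Fintype.piFinset I).filter (fun q => (∀ i, 0 ≤ s i (q i) ∧ s i (q i) ≤ (1 : ℕ) * (lo n : ℕ)) ∧
        ¬ Holds ε' (U + 1) (lo n) (fun i => (s i (q i)).toNat)) ∪
      (Fintype.piFinset I).filter (fun q => (∀ i, 0 ≤ s i (q i) ∧ s i (q i) ≤ (1 : ℕ) * (hi b n : ℕ)) ∧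
        ¬ Holds ε' (U + 1) (hi b n) (fun i => (s i (q i)).toNat)) := by
    intro q hq
    rw [mem_filter] at hq
    obtain ⟨hq1, hq2, hq3⟩ := hq
    rw [mem_union, mem_filter, mem_filter]
    by_contra hcon
    rw [not_or] at hcon
    obtain ⟨c1, c2⟩ := hcon
    apply hq3
    have hb0 : ∀ i, 0 ≤ s i (q i) ∧ s i (q i) ≤ (1 : ℕ) * (lo n : ℕ) := by
      intro i
      refine ⟨(hq2 i).1, (hq2 i).2.trans ?_⟩
      rw [Nat.cast_one, one_mul]
      exact_mod_cast hD0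
    have hb1 : ∀ i, 0 ≤ s i (q i) ∧ s i (q i) ≤ (1 : ℕ) * (hi b n : ℕ) := by
      intro i
      refine ⟨(hq2 i).1, (hq2 i).2.trans ?_⟩
      rw [Nat.cast_one, one_mul]
      exact_mod_cast hD1
    have H0 : Holds ε' (U + 1) (lo n) (fun i => (s i (q i)).toNat) := by
      by_contra h
      exact c1 ⟨hq1, hb0, h⟩
    have H1 : Holds ε' (U + 1) (hi b n) (fun i => (s i (q i)).toNat) := by
      by_contra h
      exact c2 ⟨hq1, hb1, h⟩
    refine transfer (by omega) h4 _ (fun i => ?_) hlh hκ hε hε' (hδ ▸ min_le_left _ _) (hδ ▸ min_le_right _ _) g1 g6 g7 H0 H1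
    show (s i (q i)).toNat ≤ Nat.sqrt n / b
    exact Int.toNat_le.2 (hq2 i).2
  have hc := (card_le_card hsub).trans (card_union_le _ _)
  have hc' : (((Fintype.piFinset I).filter (fun q => (∀ i, 0 ≤ s i (q i) ∧ s i (q i) ≤ (Nat.sqrt n / b : ℕ)) ∧
      ¬ HoldsR ε b n (fun i => (s i (q i)).toNat))).card : ℝ) ≤
      (((Fintype.piFinset I).filter (fun q => (∀ i, 0 ≤ s i (q i) ∧ s i (q i) ≤ (1 : ℕ) * (lo n : ℕ)) ∧
        ¬ Holds ε' (U + 1) (lo n) (fun i => (s i (q i)).toNat))).card : ℝ) +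
      (((Fintype.piFinset I).filter (fun q => (∀ i, 0 ≤ s i (q i) ∧ s i (q i) ≤ (1 : ℕ) * (hi b n : ℕ)) ∧
        ¬ Holds ε' (U + 1) (hi b n) (fun i => (s i (q i)).toNat))).card : ℝ) := by exact_mod_cast hc
  linarith

theorem expl (k b U : ℕ) (hk : 1 ≤ k) (hb : 12 ≤ b) (ε : ℝ) (hε : 0 < ε) : ∃ C n₀ : ℕ, ∀ n : ℕ, n₀ ≤ n → ¬ 4 ∣ n →
    ∀ N : ℕ, N = Nat.sqrt n / b → ∀ I : Finset (ℕ × ℕ),
      I = Pool.Agent.K1H51.LD.pairs ⌊Real.log N ^ C⌋₊ ⌊Real.log N ^ (2 * C)⌋₊ →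
    ∀ M : Fin k → ℕ, (∀ i, (M i).Prime ∧ (48 * b + 8) * N ≤ M i ∧ M i ≤ (96 * b + 16) * N) → ∀ c : Fin k → ℤ,
      (∀ i, (I.card : ℝ) / (100 * (8 * b + 1)) ≤
        ((I.filter (fun j => 1 ≤ frac (M i) (c i) j ∧ frac (M i) (c i) j ≤ N)).card : ℝ)) ∧
      exc ε b n (fun _ => I) (fun i => frac (M i) (c i)) ≤ (I.card : ℝ) ^ k / Real.log n ^ U := by
  classical
  obtain ⟨U1, h1⟩ := gen k b U hk hb ε hε
  obtain ⟨n1, h1⟩ := h1 0
  obtain ⟨C, N2, h3⟩ := Pool.Agent.K1H51.LD.frac_param (8 * b) (U1 + 1) (by omega)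
  have hbr : (12 : ℝ) ≤ b := by exact_mod_cast hb
  have hb0 : (0 : ℝ) < b := by linarith
  have hlt : ∀ᶠ n : ℕ in Filter.atTop, 4 * (4 ^ U1 + 1 : ℝ) < Real.log n :=
    (Real.tendsto_log_atTop.comp tendsto_natCast_atTop_atTop).eventually_gt_atTop _
  have hsq : ∀ᶠ n : ℕ in Filter.atTop, (2 * b * (N2 + 6 * b + 1) + 4 * b ^ 2 + 1 : ℝ) < Real.sqrt n :=
    sqrt_tendsto.eventually_gt_atTop _
  have hdv : ∀ᶠ n : ℕ in Filter.atTop, 1 / (2 * b : ℝ) < ((Nat.sqrt n / b : ℕ) : ℝ) / Real.sqrt n := by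
    apply (div_tendsto b (by omega)).eventually (lt_mem_nhds _)
    apply one_div_lt_one_div_of_lt hb0
    linarith
  obtain ⟨n2, hn2⟩ := Filter.eventually_atTop.1 ((hlt.and hsq).and hdv)
  refine ⟨C, n1 + n2 + 1, fun n hn h4 N hN I hI M hM c => ?_⟩
  obtain ⟨⟨g1, g2⟩, g3⟩ := hn2 n (by omega)
  rw [← hN] at g3
  have hn0 : (0 : ℝ) < n := by exact_mod_cast (by omega : 0 < n)
  have hs0 : 0 < Real.sqrt n := Real.sqrt_pos.2 hn0
  have hss : Real.sqrt n * Real.sqrt n = n := Real.mul_self_sqrt hn0.le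
  rw [lt_div_iff₀ hs0, one_div, inv_mul_lt_iff₀ (by positivity)] at g3
  -- `√n < 2 b N`
  have hNpos : (0 : ℝ) < N := by
    by_contra h
    have : 2 * b * (N : ℝ) ≤ 0 := mul_nonpos_of_nonneg_of_nonpos (by positivity) (not_lt.1 h)
    linarith
  have hNbig : (N2 + 6 * b + 1 : ℝ) ≤ N := by
    by_contra h
    push Not at h
    have : 2 * b * (N : ℝ) ≤ 2 * b * (N2 + 6 * b + 1 : ℝ) := mul_le_mul_of_nonneg_left h.le (by positivity)
    nlinarith [sq_nonneg (b : ℝ)]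
  have hN2 : N2 ≤ N := by
    have h5 : (N2 : ℝ) ≤ N := by linarith
    exact_mod_cast h5
  have hlogs : Real.log (Real.sqrt n) = Real.log n / 2 := Real.log_sqrt hn0.le
  have hNN : Real.sqrt n ≤ (N : ℝ) * N := by
    have h5 : Real.sqrt n * Real.sqrt n ≤ (2 * b * N) * (2 * b * N) := mul_self_le_mul_self hs0.le g3.le
    have h6 : 4 * (b : ℝ) ^ 2 ≤ Real.sqrt n := by
      have : (0 : ℝ) ≤ 2 * b * (N2 + 6 * b + 1) := by positivity
      linarith
    have h7 : (4 * (b : ℝ) ^ 2) * Real.sqrt n ≤ (4 * (b : ℝ) ^ 2) * (N * N) := by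
      calc (4 * (b : ℝ) ^ 2) * Real.sqrt n ≤ Real.sqrt n * Real.sqrt n := mul_le_mul_of_nonneg_right h6 hs0.le
        _ ≤ (2 * b * N) * (2 * b * N) := h5
        _ = (4 * (b : ℝ) ^ 2) * (N * N) := by ring
    exact le_of_mul_le_mul_left h7 (by positivity)
  obtain ⟨L, hL⟩ : ∃ L, L = Real.log (n : ℝ) := ⟨_, rfl⟩
  obtain ⟨ℓ, hℓ⟩ : ∃ ℓ, ℓ = Real.log (N : ℝ) := ⟨_, rfl⟩
  have hℓ1 : L / 4 ≤ ℓ := by
    have h5 : Real.log (Real.sqrt n) ≤ Real.log ((N : ℝ) * N) := Real.log_le_log hs0 hNN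
    rw [Real.log_mul hNpos.ne' hNpos.ne', hlogs, ← hL, ← hℓ] at h5
    linarith
  have h4U : (0 : ℝ) < 4 ^ U1 := by positivity
  rw [← hL] at g1
  have hL0 : 0 < L := by linarith
  have hℓ0 : 0 < ℓ := by linarith
  have hpow : L ^ U1 ≤ ℓ ^ (U1 + 1) := by
    calc L ^ U1 ≤ (4 * ℓ) ^ U1 := pow_le_pow_left₀ hL0.le (by linarith) _
      _ = 4 ^ U1 * ℓ ^ U1 := by rw [mul_pow]
      _ ≤ ℓ * ℓ ^ U1 := by
          apply mul_le_mul_of_nonneg_right _ (by positivity)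
          linarith
      _ = ℓ ^ (U1 + 1) := by rw [pow_succ]; ring
  have h5 : ∀ i, (∀ t : ℕ, 0 < t → t < M i →
      ‖∑ j ∈ I, Pool.Agent.H807R2.Dav.ee ((t : ℝ) * ((frac (M i) (c i) j : ℝ) / M i))‖ ≤ (1 / ℓ ^ (U1 + 1)) * I.card) ∧
      (I.card : ℝ) / (100 * ((8 * b : ℕ) + 1)) ≤
        ((I.filter (fun j => 1 ≤ frac (M i) (c i) j ∧ frac (M i) (c i) j ≤ N)).card : ℝ) := by
    intro i
    have h6 := h3 N hN2 (M i) (hM i).1 (by
      refine le_trans (le_of_eq ?_) (hM i).2.1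
      ring) (by
      refine (hM i).2.2.trans (le_of_eq ?_)
      ring) (c i)
    rw [← hI, ← hℓ] at h6
    exact h6
  refine ⟨fun i => ?_, ?_⟩
  · have h6 := (h5 i).2
    push_cast at h6
    exact h6
  have key := h1 n (by omega) h4 (fun _ => ℕ × ℕ) (fun _ => I) (fun i => frac (M i) (c i)) M (fun i => ?_) (fun i => ?_)
  · refine key.trans (le_of_eq ?_)
    rw [prod_const, card_univ, Fintype.card_fin]
  · have h6 : Nat.sqrt n < b * (N + 1) := by
      rw [hN]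
      exact Nat.lt_mul_div_succ (Nat.sqrt n) (by omega : 0 < b)
    have h7 : Real.sqrt n < Nat.sqrt n + 1 := Real.real_sqrt_lt_nat_sqrt_succ
    have h8 : ((Nat.sqrt n + 1 : ℕ) : ℝ) ≤ ((b * (N + 1) : ℕ) : ℝ) := by exact_mod_cast h6
    push_cast at h8
    have h9 : (((48 * b + 8) * N : ℕ) : ℝ) ≤ M i := by exact_mod_cast (hM i).2.1
    push_cast at h9
    have h10 : (0 : ℝ) ≤ N2 := Nat.cast_nonneg _
    nlinarith
  · have hsub : spectrum (M i) I (frac (M i) (c i)) (1 / Real.log n ^ U1) ⊆ {0} := by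
      intro t ht
      unfold spectrum at ht
      rw [mem_filter, mem_range] at ht
      rw [mem_singleton]
      by_contra hne
      have h6 := (h5 i).1 t (by omega) ht.1
      have h7 : (1 / ℓ ^ (U1 + 1)) * (I.card : ℝ) ≤ (1 / Real.log n ^ U1) * I.card := by
        apply mul_le_mul_of_nonneg_right _ (Nat.cast_nonneg _)
        rw [← hL]
        exact one_div_le_one_div_of_le (by positivity) hpow
      exact absurd ht.2 (not_lt.2 (h6.trans h7))
    have hc : ((spectrum (M i) I (frac (M i) (c i)) (1 / Real.log n ^ U1)).card : ℝ) ≤ 1 := by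
      exact_mod_cast (card_le_card hsub).trans (by simp)
    have h6 : 48 * Real.sqrt n ≤ M i := by
      have h6 : Nat.sqrt n < b * (N + 1) := by
        rw [hN]
        exact Nat.lt_mul_div_succ (Nat.sqrt n) (by omega : 0 < b)
      have h7 : Real.sqrt n < Nat.sqrt n + 1 := Real.real_sqrt_lt_nat_sqrt_succ
      have h8 : ((Nat.sqrt n + 1 : ℕ) : ℝ) ≤ ((b * (N + 1) : ℕ) : ℝ) := by exact_mod_cast h6
      push_cast at h8
      have h9 : (((48 * b + 8) * N : ℕ) : ℝ) ≤ M i := by exact_mod_cast (hM i).2.1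
      push_cast at h9
      have h10 : (0 : ℝ) ≤ N2 := Nat.cast_nonneg _
      nlinarith
    rw [pow_zero, one_mul]
    calc ((spectrum (M i) I (frac (M i) (c i)) (1 / Real.log n ^ U1)).card : ℝ) * Real.sqrt n
        ≤ 1 * Real.sqrt n := mul_le_mul_of_nonneg_right hc hs0.le
      _ ≤ M i := by linarith

end Pool.Agent.K1H84.FS
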